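import Pool.Agent.Run7.h378.PS.Stm

set_option autoImplicit false

namespace Run7.h378.PS

open MvPolynomial Filter Topology

/-- families of polynomials with continuous coefficients -/
def CC {σ : Type} (f : ℝ → MvPolynomial σ ℝ) : Prop := ∀ γ, Continuous fun ε => coeff γ (f ε)

theorem CC.const {σ : Type} (Q : MvPolynomial σ ℝ) : CC (fun _ => Q) := fun _ => continuous_const

theorem CC.add {σ : Type} {f g : ℝ → MvPolynomial σ ℝ} (hf : CC f) (hg : CC g) :
    CC (fun ε => f ε + g ε) := fun γ => by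
  simp only [coeff_add]; exact (hf γ).add (hg γ)

theorem CC.sub {σ : Type} {f g : ℝ → MvPolynomial σ ℝ} (hf : CC f) (hg : CC g) :
    CC (fun ε => f ε - g ε) := fun γ => by
  simp only [coeff_sub]; exact (hf γ).sub (hg γ)

theorem CC.mul {σ : Type} {f g : ℝ → MvPolynomial σ ℝ} (hf : CC f) (hg : CC g) :
    CC (fun ε => f ε * g ε) := fun γ => by
  classical
  simp only [coeff_mul]
  exact continuous_finsetSum _ (fun x _ => (hf _).mul (hg _))

theorem CC.pow {σ : Type} {f : ℝ → MvPolynomial σ ℝ} (hf : CC f) (n : ℕ) :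
    CC (fun ε => f ε ^ n) := by
  induction n with
  | zero => simp only [pow_zero]; exact CC.const 1
  | succ n ih => simp only [pow_succ]; exact ih.mul hf

theorem CC.C {σ : Type} {c : ℝ → ℝ} (hc : Continuous c) :
    CC (fun ε => (C (c ε) : MvPolynomial σ ℝ)) := fun γ => by
  classical
  simp only [coeff_C]
  split_ifs
  · exact hc
  · exact continuous_const

theorem CC.hh {σ : Type} {a b c d e : ℝ → MvPolynomial σ ℝ} (ha : CC a) (hb : CC b) (hc : CC c)
    (hd : CC d) (he : CC e) : CC (fun ε => PS.hh (a ε) (b ε) (c ε) (d ε) (e ε)) := by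
  unfold PS.hh
  exact (((((ha.pow 2).mul hd).add (hb.pow 3)).sub ((((CC.const 2).mul ha).mul hb).mul hc)).add
    (hc.mul hd)).sub (hb.mul he)

theorem td_P (j : ℕ) : (P j).totalDegree ≤ j := by
  unfold P
  refine (totalDegree_finsetSum _ _).trans (Finset.sup_le fun i _ => ?_)
  refine (totalDegree_pow _ _).trans ?_
  rw [totalDegree_X, mul_one]

theorem td_PC (j : ℕ) (c : ℝ) : (P j + C c).totalDegree ≤ j := by
  refine (totalDegree_add _ _).trans (max_le (td_P j) ?_)
  rw [totalDegree_C]; exact Nat.zero_le _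

theorem td_mul {a b : MvPolynomial (Fin 3) ℝ} {m n : ℕ} (ha : a.totalDegree ≤ m)
    (hb : b.totalDegree ≤ n) : (a * b).totalDegree ≤ m + n :=
  (totalDegree_mul _ _).trans (add_le_add ha hb)

theorem td_add {a b : MvPolynomial (Fin 3) ℝ} {m : ℕ} (ha : a.totalDegree ≤ m)
    (hb : b.totalDegree ≤ m) : (a + b).totalDegree ≤ m :=
  (totalDegree_add _ _).trans (max_le ha hb)

theorem td_sub {a b : MvPolynomial (Fin 3) ℝ} {m : ℕ} (ha : a.totalDegree ≤ m)
    (hb : b.totalDegree ≤ m) : (a - b).totalDegree ≤ m :=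
  (totalDegree_sub _ _).trans (max_le ha hb)

theorem td_pow {a : MvPolynomial (Fin 3) ℝ} {m : ℕ} (ha : a.totalDegree ≤ m) (n : ℕ) :
    (a ^ n).totalDegree ≤ n * m :=
  (totalDegree_pow _ _).trans (Nat.mul_le_mul_left _ ha)

theorem td_one : (1 : MvPolynomial (Fin 3) ℝ).totalDegree ≤ 0 := by
  rw [totalDegree_one]

theorem td_two : (2 : MvPolynomial (Fin 3) ℝ).totalDegree ≤ 0 := by
  have : (2 : MvPolynomial (Fin 3) ℝ) = C 2 := (map_ofNat C 2).symm
  rw [this, totalDegree_C]

theorem t_LI : S_LI := by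
  intro k
  refine ⟨?_, ?_⟩
  · have h : CC (FF k) := by
      unfold FF
      have hC : ∀ (j l : ℕ), CC (fun ε : ℝ => P j + C (ε ^ l)) := fun j l =>
        (CC.const _).add (CC.C (continuous_pow l))
      have hC1 : CC (fun ε : ℝ => P 4 + C ε) := (CC.const _).add (CC.C continuous_id)
      exact ((CC.const _).mul (((CC.const (P 2 + 1)).mul
        (CC.hh hC1 (hC 6 2) (hC 8 3) (hC 10 4) (hC 12 5))).add (hC 20 9)))
    exact h
  · intro ε
    unfold FF
    have h1 : (P 2 + 1).totalDegree ≤ 2 := td_add (td_P 2) (td_one.trans (Nat.zero_le _))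
    have h2 : (hh (P 4 + C ε) (P 6 + C (ε ^ 2)) (P 8 + C (ε ^ 3)) (P 10 + C (ε ^ 4))
        (P 12 + C (ε ^ 5))).totalDegree ≤ 18 := by
      unfold hh
      have a4 := td_PC 4 ε
      have a6 := td_PC 6 (ε ^ 2)
      have a8 := td_PC 8 (ε ^ 3)
      have a10 := td_PC 10 (ε ^ 4)
      have a12 := td_PC 12 (ε ^ 5)
      refine td_sub (td_add (td_sub (td_add ?_ ?_) ?_) ?_) ?_
      · exact td_mul (td_pow a4 2) a10
      · exact td_pow a6 3
      · exact td_mul (td_mul (td_mul td_two a4) a6) a8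
      · exact td_mul a8 a10
      · exact td_mul a6 a12
    have h3 := td_mul h1 h2
    have h4 := td_add h3 (td_PC 20 (ε ^ 9))
    have h5 := td_mul (td_pow h1 k) h4
    omega

end Run7.h378.PS
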