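import Pool.Agent.Run7.h378.PS.Stm

set_option autoImplicit false

namespace Run7.h378.PS

open MvPolynomial Filter Topology

theorem SOS.map {σ τ : Type} {Q : MvPolynomial σ ℝ} (h : SOS Q)
    (φ : MvPolynomial σ ℝ →ₐ[ℝ] MvPolynomial τ ℝ) : SOS (φ Q) := by
  obtain ⟨r, q, hq⟩ := h
  refine ⟨r, fun i => φ (q i), ?_⟩
  rw [hq, map_sum]
  simp only [map_pow]

theorem hh_map {A B : Type} [CommRing A] [CommRing B] (φ : A →+* B) (a b c d e : A) :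
    φ (hh a b c d e) = hh (φ a) (φ b) (φ c) (φ d) (φ e) := by
  simp [hh, map_ofNat]

/-- the power sums of the first three of four variables -/
noncomputable def P4 (j : ℕ) : MvPolynomial (Fin 4) ℝ := X 0 ^ j + X 1 ^ j + X 2 ^ j

noncomputable def τ : MvPolynomial (Fin 3) ℝ →ₐ[ℝ] MvPolynomial (Fin 4) ℝ :=
  aeval (fun i : Fin 3 => X 3 * X i.castSucc)

theorem τ_P (j : ℕ) : τ (P j) = X 3 ^ j * P4 j := by
  unfold τ P P4
  rw [Fin.sum_univ_three]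
  simp only [map_add, map_pow, aeval_X]
  have e0 : (Fin.castSucc (0 : Fin 3)) = (0 : Fin 4) := rfl
  have e1 : (Fin.castSucc (1 : Fin 3)) = (1 : Fin 4) := rfl
  have e2 : (Fin.castSucc (2 : Fin 3)) = (2 : Fin 4) := rfl
  rw [e0, e1, e2, mul_pow, mul_pow, mul_pow]
  ring

noncomputable def π : MvPolynomial (Fin 4) ℝ →ₐ[ℝ] MvPolynomial (Fin 3) ℝ :=
  aeval ![X 0, X 1, X 2, 0]

theorem π_P4 (j : ℕ) : π (P4 j) = P j := by
  unfold π P4 P
  rw [Fin.sum_univ_three]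
  simp [aeval_X]

theorem t_Z : S_Z := by
  intro hV k h
  have h1 := h.map τ
  have e1 : τ (FF k 0) = X 3 ^ (2 * 9) * ((X 3 ^ 2 * P4 2 + 1) ^ k *
      ((X 3 ^ 2 * P4 2 + 1) * hh (P4 4) (P4 6) (P4 8) (P4 10) (P4 12) + X 3 ^ 2 * P4 20)) := by
    unfold FF
    have hz : ∀ l : ℕ, l ≠ 0 → (C ((0 : ℝ) ^ l) : MvPolynomial (Fin 3) ℝ) = 0 := by
      intro l hl; rw [zero_pow hl, C_0]
    rw [hz 2 (by norm_num), hz 3 (by norm_num), hz 4 (by norm_num), hz 5 (by norm_num),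
      hz 9 (by norm_num), C_0]
    simp only [add_zero, map_mul, map_pow, map_add, map_one, τ_P]
    have h2 : τ (hh (P 4) (P 6) (P 8) (P 10) (P 12)) =
        hh (τ (P 4)) (τ (P 6)) (τ (P 8)) (τ (P 10)) (τ (P 12)) := hh_map τ.toRingHom _ _ _ _ _
    rw [h2]
    simp only [τ_P, hh]
    ring
  rw [e1] at h1
  have h2 := (hV 4 3 9 _ h1).map π
  have e2 : π ((X 3 ^ 2 * P4 2 + 1) ^ k *
      ((X 3 ^ 2 * P4 2 + 1) * hh (P4 4) (P4 6) (P4 8) (P4 10) (P4 12) + X 3 ^ 2 * P4 20)) =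
      hh (P 4) (P 6) (P 8) (P 10) (P 12) := by
    have hX : π (X 3) = 0 := by simp [π]
    have h3 : π (hh (P4 4) (P4 6) (P4 8) (P4 10) (P4 12)) =
        hh (π (P4 4)) (π (P4 6)) (π (P4 8)) (π (P4 10)) (π (P4 12)) :=
      hh_map π.toRingHom _ _ _ _ _
    simp only [map_mul, map_pow, map_add, map_one, h3, π_P4, hX]
    ring
  rw [e2] at h2
  have e3 : hh (P 4) (P 6) (P 8) (P 10) (P 12) =
      X 0 ^ (2 * 2) * (X 1 ^ (2 * 2) * (X 2 ^ (2 * 2) * (2 * RR))) := by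
    unfold hh P RR
    simp only [Fin.sum_univ_three]
    ring
  rw [e3] at h2
  exact hV 3 2 2 _ (hV 3 1 2 _ (hV 3 0 2 _ h2))

end Run7.h378.PS
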