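import Pool.Agent.Run7.h409.PS.V
import Pool.Agent.Run7.h642.PS.D
import Pool.Agent.Run7.h532.PS.PO
import Pool.Agent.Run7.h644.PS.W
import Pool.Agent.Run7.h648.PS2.H
import Pool.Agent.Run7.h224.PS.G
import Pool.Agent.Run7.h355.PS.RE
import Pool.Agent.Run7.h690.PS.CL
import Pool.Agent.Run7.h378.PS.LI
import Pool.Agent.Run7.h378.PS.Z

/-!
# Assembly of project PS

Pieces: V helper409, D helper642, PO helper532, W helper644, H helper648, G helper224, RE helper355,
CL helper690, LI and Z helper378 (also done by helper644); further copies: CL helper112, helper739, G helper701,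
helper532.
-/

set_option autoImplicit false

namespace Run7.h378.PS

theorem main : S_FIN :=
  fin Run7.h409.PS.t_V Run7.h642.PS.t_D Run7.h224.PS.t_G Run7.h690.PS.t_CL Run7.h648.PS2.t_H
    Pool.Agent.Run7.h532.PS.t_PO Pool.Agent.Run7.h644.PS.t_W Run7.h355.PS.t_RE t_LI t_Z

end Run7.h378.PS
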