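import Mathlib

/-!
# Project PS (MP_2f3180_ag, Q2): strict positivity does not suffice for any-dimensional sums of squares

`h = p₄²p₁₀ + p₆³ - 2p₄p₆p₈ + p₈p₁₀ - p₆p₁₂` is `1/3` of the sum of `(x_i x_j x_k)⁴ R(x_i,x_j,x_k)` over the
triples of distinct indices, `R` Robinson's form; `f = p₂ h + p₂₀`. Every piece is a closed `Prop`.
-/

set_option autoImplicit false

namespace Run7.h378.PS

open MvPolynomial Filter Topology

/-- sums of squares of polynomials -/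
def SOS {σ : Type} (P : MvPolynomial σ ℝ) : Prop :=
  ∃ (r : ℕ) (q : Fin r → MvPolynomial σ ℝ), P = ∑ i, q i ^ 2

/-- the truncation `f⁽ⁿ⁾` of the symmetric function `f = g(p₁, p₂, …)` -/
noncomputable def trunc (g : MvPolynomial ℕ ℝ) (n : ℕ) : MvPolynomial (Fin n) ℝ :=
  aeval (fun j => ∑ i : Fin n, (X i : MvPolynomial (Fin n) ℝ) ^ j) g

/-- The value `f(x)` of `f = g(p₁, p₂, …)` at a sequence. -/
noncomputable def val (g : MvPolynomial ℕ ℝ) (x : ℕ → ℝ) : ℝ :=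
  eval (fun j => ∑' i, x i ^ j) g

/-- `h` as an expression in commuting elements `a₄, a₆, a₈, a₁₀, a₁₂` -/
def hh {A : Type} [CommRing A] (a4 a6 a8 a10 a12 : A) : A :=
  a4 ^ 2 * a10 + a6 ^ 3 - 2 * a4 * a6 * a8 + a8 * a10 - a6 * a12

/-- the symmetric function `f = p₂ h + p₂₀` -/
noncomputable def gg : MvPolynomial ℕ ℝ :=
  X 2 * hh (X 4) (X 6) (X 8) (X 10) (X 12) + X 20

/-- power sums of three variables -/
noncomputable def P (j : ℕ) : MvPolynomial (Fin 3) ℝ := ∑ i : Fin 3, X i ^ j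

/-- the restriction of `p₂ᵏ f` to the points `(y₁, y₂, y₃, a, …, a)` with `N a² = 1`, `ε = a²` -/
noncomputable def FF (k : ℕ) (ε : ℝ) : MvPolynomial (Fin 3) ℝ :=
  (P 2 + 1) ^ k * ((P 2 + 1) * hh (P 4 + C ε) (P 6 + C (ε ^ 2)) (P 8 + C (ε ^ 3)) (P 10 + C (ε ^ 4))
    (P 12 + C (ε ^ 5)) + (P 20 + C (ε ^ 9)))

/-- Robinson's form -/
noncomputable def RR : MvPolynomial (Fin 3) ℝ :=
  X 0 ^ 6 + X 1 ^ 6 + X 2 ^ 6 - (X 0 ^ 4 * X 1 ^ 2 + X 0 ^ 4 * X 2 ^ 2 + X 1 ^ 4 * X 0 ^ 2 +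
    X 1 ^ 4 * X 2 ^ 2 + X 2 ^ 4 * X 0 ^ 2 + X 2 ^ 4 * X 1 ^ 2) + 3 * X 0 ^ 2 * X 1 ^ 2 * X 2 ^ 2

/-- **V** (60 lines). Division by squares of variables. Induction on `n`; one step: `X j ^ 2 * P = ∑ q i ^ 2`.
Setting `X j = 0` (the hom `aeval (Function.update X j 0)`; or evaluate at real points with `x j = 0`) gives
`∑ (q i)|_{x_j = 0}² = 0`, so each `q i` vanishes at all real points with `x j = 0`, hence `X j ∣ q i`
(`MvPolynomial.funext` for the image under the hom; `X j ∣ q - hom q`), `q i = X j * c i`, cancel `X j ^ 2`. -/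
def S_V : Prop := ∀ (m : ℕ) (j : Fin m) (n : ℕ) (Q : MvPolynomial (Fin m) ℝ),
  SOS (X j ^ (2 * n) * Q) → SOS Q

/-- **D** (60 lines). Degrees in a sum of squares. Let `d` be the largest (`MonomialOrder.degLex`) degree of
the `q i`, say `q i₀ ≠ 0`: the coefficient of `d + d` in `∑ q i ^ 2` is `∑ (coeff d (q i))² > 0`
(`MonomialOrder.coeff_mul_of_add_of_degree_le` or by hand), so `2 |d| ≤ 2 m`; every monomial of `q i` is
`≤ d` in `degLex`, so it has total degree `≤ |d| ≤ m`. -/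
def S_D : Prop := ∀ (v r m : ℕ) (q : Fin r → MvPolynomial (Fin v) ℝ),
  (∑ i, q i ^ 2).totalDegree ≤ 2 * m → ∀ i, (q i).totalDegree ≤ m

/-- **G** (60 lines, from D). Robinson's form is not a sum of squares: `2 R = ∑ q i ^ 2`, `deg q i ≤ 3` (D). For
polynomials `c` of total degree `≤ 3`: `∑_{a,b ∈ {-1,0,1}} w_a w_b c(a,b,1) = 0`, `w = (1,-2,1)` (check monomials:
`∑_a w_a a^k` is `0` for `k = 0` and `k` odd, and `2` for even `k ≥ 2`, so a nonzero term needs `k, l ≥ 2`).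
`R(a,b,1) = 0` for the eight `(a,b) ≠ (0,0)`, so `q i (a,b,1) = 0` there, so `q i (0,0,1) = 0`, but
`R(0,0,1) = 1`. -/
def S_G : Prop := S_D → ¬ SOS (2 * RR)

/-- **CL** (120 lines, from D). The cone of sums of squares of bounded degree is closed. Let `B` be the finite
type of exponents of total degree `≤ m` and for `F N = ∑ q i ^ 2` (degrees `≤ m` by D) the Gram matrix
`Q_N α β = ∑_i coeff α (q i) * coeff β (q i)`: positive semidefinite, `coeff γ (F N) = ∑_{α + β = γ} Q_N α β`,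
and bounded: the linear map `c ↦ (∑_α c α * p^α)_p`, `p ∈ {0,…,m}^v` (or `p` in a large grid), is injective on
`B → ℝ` (`MvPolynomial.eq_zero_of_eval_zero_at_prod_finset`), so `|c α|² ≤ K ∑_p (∑_α c α p^α)²`
(`LinearMap.exists_antilipschitzWith`), so `Q_N α α ≤ K ∑_p eval p (F N)`, and `eval p (F N)` converges;
`|Q_N α β| ≤ max`. Take a convergent subsequence; the limit is positive semidefinite, hence `Mᵀ M`, and gives
the squares. -/
def S_CL : Prop := S_D → ∀ (v m : ℕ) (F : ℕ → MvPolynomial (Fin v) ℝ) (F0 : MvPolynomial (Fin v) ℝ),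
  (∀ N, SOS (F N)) → (∀ N, (F N).totalDegree ≤ 2 * m) →
  (∀ γ, Tendsto (fun N => coeff γ (F N)) atTop (𝓝 (coeff γ F0))) → SOS F0

/-- **H** (60 lines). `h ≥ 0` on finite families, `u i = x i ²`, `q j = ∑ u i ^ j`. Induction on `s` (`insert a s`,
everything by `ring` after `Finset.sum_insert`): `h(s ∪ a) = h(s) + 2 u_a² h₂(s; u_a)` with
`2 h₂(s; v) = 2q5q2 + v³q2² - 2q4q3 - 2vq4q2 - 2v²q3q2 + 3vq3² - v³q4 + 2v²q5 - vq6` and
`h₂(s ∪ a; v) = h₂(s; v) + a² ∑_{i∈s} u_i² Schur(u_i, a, v)`, where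
`∑ u_i² Schur(u_i,a,v) = q5 + (a³+v³)q2 - (a+v)q4 - (a²+v²)q3 - (a²v+av²)q2 + 3avq3 ≥ 0` by Schur's inequality
`Schur(a,b,c) = a(a-b)(a-c) + b(b-a)(b-c) + c(c-a)(c-b) ≥ 0`. -/
def S_H : Prop := ∀ (s : Finset ℕ) (u : ℕ → ℝ), (∀ i, 0 ≤ u i) →
  0 ≤ hh (∑ i ∈ s, u i ^ 2) (∑ i ∈ s, u i ^ 3) (∑ i ∈ s, u i ^ 4) (∑ i ∈ s, u i ^ 5) (∑ i ∈ s, u i ^ 6)

/-- **PO** (60 lines, from H). `f > 0` on the unit sphere of `ℓ²`: `x i ^ j` is summable for `j ≥ 2` (`|x i| ≤ 1`),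
the value of `h` is the limit of the values for `Finset.range n` (H with `u i = x i ^ 2`), `p₂₀ > 0` as some
`x i ≠ 0`. -/
def S_PO : Prop := S_H → ∀ x : ℕ → ℝ, Summable (fun i => x i ^ 2) → ∑' i, x i ^ 2 = 1 → 0 < val gg x

/-- **W** (40 lines). `gg` is weighted homogeneous of degree 20 (`p_j` has weight `j`) and contains only
`p₂, …, p₂₀`. -/
def S_W : Prop := IsWeightedHomogeneous (fun j : ℕ => j) gg 20 ∧ ∀ j ∈ gg.vars, 2 ≤ j ∧ j ≤ 20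

/-- **RE** (50 lines). The restriction: the hom `X i ↦ X i` (`i < 3`), `X i ↦ C (1/(M+1))` (`i ≥ 3`) from
`3 + (M+1)²` variables; `p_j ↦ P j + C ((M+1)² (1/(M+1))^j)`; sums of squares go to sums of squares. -/
def S_RE : Prop := ∀ (k M : ℕ),
  SOS ((∑ i : Fin (3 + (M + 1) ^ 2), (X i : MvPolynomial (Fin (3 + (M + 1) ^ 2)) ℝ) ^ 2) ^ k *
    trunc gg (3 + (M + 1) ^ 2)) → SOS (FF k ((1 / ((M : ℝ) + 1)) ^ 2))

/-- **LI** (50 lines). Coefficients of `FF k ε` are continuous in `ε` (closure of `∀ γ, Continuous (coeff γ ·)` under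
`+`, `-`, `*`, `^`, constants, `C (ε ^ l)`), and `totalDegree ≤ 2 (k + 10)`. -/
def S_LI : Prop := ∀ k : ℕ, (∀ γ, Continuous fun ε : ℝ => coeff γ (FF k ε)) ∧
  ∀ ε, (FF k ε).totalDegree ≤ 2 * (k + 10)

/-- **Z** (60 lines, from V). The limit is not a sum of squares if `2 R` is not: apply the hom `X i ↦ X 3 * X i` to
`MvPolynomial (Fin 4) ℝ`: `FF k 0 ↦ X 3 ^ 18 * W`, `W = (X₃²P₂+1)^k ((X₃²P₂+1) h(P) + X₃² P₂₀)`; V, then set
`X 3 = 0`: `h(P 4, …) = X 0 ^ 4 * (X 1 ^ 4 * (X 2 ^ 4 * (2 R)))` (`ring`) is a sum of squares; V three times. -/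
def S_Z : Prop := S_V → ∀ k : ℕ, SOS (FF k 0) → SOS (2 * RR)

/-- the final theorem -/
def S_FIN : Prop := ∃ (d : ℕ) (g : MvPolynomial ℕ ℝ), 1 ≤ d ∧
  IsWeightedHomogeneous (fun j : ℕ => j) g (2 * d) ∧ (∀ j ∈ g.vars, 2 ≤ j ∧ j ≤ 2 * d) ∧
  (∀ x : ℕ → ℝ, Summable (fun i => x i ^ 2) → ∑' i, x i ^ 2 = 1 → 0 < val g x) ∧
  ∀ k : ℕ, ∃ n : ℕ, ¬ SOS ((∑ i : Fin n, (X i : MvPolynomial (Fin n) ℝ) ^ 2) ^ k * trunc g n)

theorem fin (hV : S_V) (hD : S_D) (hG : S_G) (hCL : S_CL) (hH : S_H) (hPO : S_PO) (hW : S_W)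
    (hRE : S_RE) (hLI : S_LI) (hZ : S_Z) : S_FIN := by
  refine ⟨10, gg, by norm_num, by simpa using hW.1, by simpa using hW.2, hPO hH, fun k => ?_⟩
  by_contra hcon
  push Not at hcon
  have h1 : ∀ M : ℕ, SOS (FF k ((1 / ((M : ℝ) + 1)) ^ 2)) := fun M => hRE k M (hcon _)
  have h2 : Tendsto (fun M : ℕ => (1 / ((M : ℝ) + 1)) ^ 2) atTop (𝓝 0) := by
    have := (tendsto_one_div_add_atTop_nhds_zero_nat (𝕜 := ℝ)).pow 2
    simpa using this
  have h3 : SOS (FF k 0) := hCL hD 3 (k + 10) (fun M => FF k ((1 / ((M : ℝ) + 1)) ^ 2)) (FF k 0) h1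
    (fun M => (hLI k).2 _) (fun γ => (((hLI k).1 γ).tendsto 0).comp h2)
  exact hG hD (hZ hV k h3)

end Run7.h378.PS
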